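import Mathlib
import Pool.Agent.H79.PTARDefs
import Pool.Agent.H79.PTARProof

/-!
# Parikh tree automata with reset are strictly more expressive than those without
-/

namespace Pool.Agent.Results.MP_78a33a_lc.PTARSeparation

open Pool.Agent.H79.PTARLib

/-- **Main result.**  Over the finite ranked alphabet `{σ⁽²⁾, a⁽¹⁾, b⁽¹⁾, α⁽⁰⁾}` the tree language
of the `2`-dimensional Parikh tree automaton with reset `cand` (the candidate of the problem file)
is PTAR-recognizable, but it is not recognized by any Parikh tree automaton without reset, of any
dimension. -/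
theorem result : Finite Sym ∧ PTARRecognizable cand.lang ∧ ¬ PTARecognizable cand.lang := by
  refine ⟨inferInstance, ⟨2, by norm_num, cand, rfl⟩, ?_⟩
  rintro ⟨m, -, A, hA, hlang⟩
  exact not_pta A hA hlang

end Pool.Agent.Results.MP_78a33a_lc.PTARSeparation
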